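import Pool.Agent.Helper93.TCU.Stmts
import Pool.Agent.Helper93.TCU.Bas
import Pool.Agent.Helper3.TCS.Ret
import Pool.Agent.Helper3.TCS.Mean

/-!
# A1: the option is not killed by a neighbour or by its right vertex (helper27)
-/

set_option autoImplicit false

namespace Pool.TCU

open Pool.TC Pool.TCM Pool.TCS Finset
open scoped Classical

section

variable {V κ : Type} [Fintype V] [Fintype κ]

/-- the labels on which `retv w` depends -/
private noncomputable def A1_Q (S : CS V κ) (U : Finset V) (o : V → κ) (w : V) :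
    Finset (Lab V κ) :=
  univ.filter (fun t => t = Sum.inl (Sum.inl w) ∨ t = Sum.inl (Sum.inr w) ∨
    ∃ v ∈ U, conf S o w v ∧ t = Sum.inl (Sum.inl v))

/-- all vertices in conflict with `w` are made inactive -/
private noncomputable def A1_mod {N : ℕ} (S : CS V κ) (U : Finset V) (o : V → κ) (w : V)
    (z : Fin N) (ω : Lab V κ → Fin N) : Lab V κ → Fin N :=
  fun t => if t ∈ A1_Q S U o w then z else ω t

private theorem A1_act {S : CS V κ} {U : Finset V} {o : V → κ} {w v : V}
    (hv : v ∈ U) (hc : conf S o w v) : (Sum.inl (Sum.inl v) : Lab V κ) ∈ A1_Q S U o w := by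
  unfold A1_Q
  rw [mem_filter]
  exact ⟨mem_univ _, Or.inr (Or.inr ⟨v, hv, hc, rfl⟩)⟩

private theorem A1_act1 {S : CS V κ} {U : Finset V} {o : V → κ} {w : V} :
    (Sum.inl (Sum.inl w) : Lab V κ) ∈ A1_Q S U o w := by
  unfold A1_Q
  rw [mem_filter]
  exact ⟨mem_univ _, Or.inl rfl⟩

private theorem A1_coin1 {S : CS V κ} {U : Finset V} {o : V → κ} {w : V} :
    (Sum.inl (Sum.inr w) : Lab V κ) ∈ A1_Q S U o w := by
  unfold A1_Q
  rw [mem_filter]
  exact ⟨mem_univ _, Or.inr (Or.inl rfl)⟩

private theorem A1_act_not {S : CS V κ} {U : Finset V} {o : V → κ} {w v : V}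
    (hne : v ≠ w) (hc : ¬ conf S o w v) : (Sum.inl (Sum.inl v) : Lab V κ) ∉ A1_Q S U o w := by
  unfold A1_Q
  rw [mem_filter]
  rintro ⟨_, h | h | ⟨v', _, hc', h⟩⟩
  · exact hne (Sum.inl.inj (Sum.inl.inj h))
  · exact absurd (Sum.inl.inj h) (by simp)
  · rw [Sum.inl.inj (Sum.inl.inj h)] at hc
    exact hc hc'

private theorem A1_coin_not {S : CS V κ} {U : Finset V} {o : V → κ} {w v : V}
    (hne : v ≠ w) : (Sum.inl (Sum.inr v) : Lab V κ) ∉ A1_Q S U o w := by
  unfold A1_Q
  rw [mem_filter]
  rintro ⟨_, h | h | ⟨v', _, hc', h⟩⟩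
  · exact absurd (Sum.inl.inj h) (by simp)
  · exact hne (Sum.inr.inj (Sum.inl.inj h))
  · exact absurd (Sum.inl.inj h) (by simp)

private theorem A1_key (hBox : St_Box) (hRet : St_Ret) {S : CS V κ} {U : Finset V}
    {L : V → Finset κ} {D l m K : ℕ} {x : ℝ} {q : V → κ → ℝ} {Lam : ℝ} {o : V → κ}
    (h : Hyp S U L D l m K x q Lam) (hc : Cho S U L K o) {u : V} {a : κ} {w : V}
    (hw : w ∈ KR S U o u (S.r u a)) :
    mean (fun ω : Lab V κ → Fin (m ^ (2 * K + 1)) =>
      if retv S U o m K ω w ∧ nP S U o m K ω u a then (1 : ℝ) else 0) ≤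
    bet m K * A0 S U o m K u a := by
  have hm : 192 ≤ m := h.m192
  have hN : 0 < m ^ (2 * K + 1) := pow_pos (by omega) _
  unfold KR at hw
  rw [mem_filter] at hw
  obtain ⟨-, hwU, hwu, hwr⟩ := hw
  -- no vertex of `KP` is `w` or in conflict with `w`
  have hKP : ∀ t ∈ KP S U o u a, t ≠ w ∧ ¬ conf S o w t := by
    intro t ht
    unfold KP at ht
    rw [mem_filter] at ht
    obtain ⟨-, htU, htadj, hto⟩ := ht
    have h1 : t ≠ w := by
      intro htw
      rw [htw] at hto
      rw [hto] at hwr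
      exact hwu (S.inj w u a hwr)
    refine ⟨h1, ?_⟩
    rintro ⟨_, ⟨_, h2⟩ | h2⟩
    · rw [h2, hto] at hwr
      exact hwu (S.inj w u a hwr)
    · rw [hwr, hto] at h2
      have h3 := S.inj u t a h2
      rw [h3] at htadj
      exact S.irr t htadj
  have : Nonempty (Fin (m ^ (2 * K + 1))) := ⟨⟨0, hN⟩⟩
  obtain ⟨z, hz⟩ : ∃ z : Fin (m ^ (2 * K + 1)), m ^ (2 * K) ≤ z.val := by
    refine ⟨⟨m ^ (2 * K + 1) - 1, by omega⟩, ?_⟩
    have h1 : m ^ (2 * K + 1) = m ^ (2 * K) * m := pow_succ _ _
    have h2 : 1 ≤ m ^ (2 * K) := Nat.one_le_pow _ _ (by omega)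
    have h3 : m ^ (2 * K) * 2 ≤ m ^ (2 * K) * m := Nat.mul_le_mul_left _ (by omega)
    show m ^ (2 * K) ≤ m ^ (2 * K + 1) - 1
    omega
  -- the modified labels
  have e1 : ∀ (ω : Lab V κ → Fin (m ^ (2 * K + 1))) (t : Lab V κ), t ∉ A1_Q S U o w →
      A1_mod S U o w z ω t = ω t := by
    intro ω t ht
    unfold A1_mod
    rw [if_neg ht]
  have e2 : ∀ (ω : Lab V κ → Fin (m ^ (2 * K + 1))) (v : V), v ∈ U → conf S o w v →
      ¬ actv m K (A1_mod S U o w z ω) v := by
    intro ω v hv hcv
    unfold actv A1_mod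
    rw [if_pos (A1_act hv hcv)]
    omega
  -- if the modified labels have the property, so have the original ones
  have hmono : ∀ ω : Lab V κ → Fin (m ^ (2 * K + 1)),
      nP S U o m K (A1_mod S U o w z ω) u a → nP S U o m K ω u a := by
    intro ω hn t ht hr
    obtain ⟨htw, htc⟩ := hKP t ht
    refine hn t ht ?_
    obtain ⟨r1, r2, r3, r4⟩ := hr
    refine ⟨r1, ?_, ?_, ?_⟩
    · unfold actv at r2 ⊢
      rw [e1 ω _ (A1_act_not htw htc)]
      exact r2
    · unfold goodv at r3 ⊢
      rw [e1 ω _ (A1_coin_not htw)]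
      exact r3
    · intro v hv hcv
      by_cases hwv : conf S o w v
      · exact e2 ω v hv hwv
      · by_cases hvw : v = w
        · exfalso
          rw [hvw] at hcv
          apply htc
          obtain ⟨c1, c2 | c2⟩ := hcv
          · exact ⟨fun hh => c1 hh.symm, Or.inl ⟨S.symm _ _ c2.1, c2.2.symm⟩⟩
          · exact ⟨fun hh => c1 hh.symm, Or.inr c2.symm⟩
        · have h5 := r4 v hv hcv
          unfold actv at h5 ⊢
          rw [e1 ω _ (A1_act_not hvw hwv)]
          exact h5
  -- converse if `w` is retained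
  have hconv : ∀ ω : Lab V κ → Fin (m ^ (2 * K + 1)), retv S U o m K ω w →
      nP S U o m K ω u a → nP S U o m K (A1_mod S U o w z ω) u a := by
    intro ω hrw hn t ht hr
    obtain ⟨htw, htc⟩ := hKP t ht
    refine hn t ht ?_
    obtain ⟨r1, r2, r3, r4⟩ := hr
    refine ⟨r1, ?_, ?_, ?_⟩
    · unfold actv at r2 ⊢
      rw [e1 ω _ (A1_act_not htw htc)] at r2
      exact r2
    · unfold goodv at r3 ⊢
      rw [e1 ω _ (A1_coin_not htw)] at r3
      exact r3
    · intro v hv hcv
      by_cases hwv : conf S o w v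
      · exact hrw.2.2.2 v hv hwv
      · by_cases hvw : v = w
        · exfalso
          rw [hvw] at hcv
          apply htc
          obtain ⟨c1, c2 | c2⟩ := hcv
          · exact ⟨fun hh => c1 hh.symm, Or.inl ⟨S.symm _ _ c2.1, c2.2.symm⟩⟩
          · exact ⟨fun hh => c1 hh.symm, Or.inr c2.symm⟩
        · have h5 := r4 v hv hcv
          unfold actv at h5 ⊢
          rw [e1 ω _ (A1_act_not hvw hwv)] at h5
          exact h5
  have hprod := (hBox (Lab V κ) (Fin (m ^ (2 * K + 1)))).2 (A1_Q S U o w)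
    (fun ω => if retv S U o m K ω w then (1 : ℝ) else 0)
    (fun ω => if nP S U o m K (A1_mod S U o w z ω) u a then (1 : ℝ) else 0)
    (by
      intro ω ω' hωω
      have hiff : ∀ ω ω' : Lab V κ → Fin (m ^ (2 * K + 1)),
          (∀ t ∈ A1_Q S U o w, ω t = ω' t) → retv S U o m K ω w → retv S U o m K ω' w := by
        intro ω ω' hh hr
        obtain ⟨r1, r2, r3, r4⟩ := hr
        refine ⟨r1, ?_, ?_, ?_⟩
        · unfold actv at r2 ⊢
          rw [← hh _ A1_act1]
          exact r2
        · unfold goodv at r3 ⊢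
          rw [← hh _ A1_coin1]
          exact r3
        · intro v hv hcv
          have h5 := r4 v hv hcv
          unfold actv at h5 ⊢
          rw [← hh _ (A1_act hv hcv)]
          exact h5
      exact if_congr ⟨hiff ω ω' hωω, hiff ω' ω fun t ht => (hωω t ht).symm⟩ rfl rfl)
    (by
      intro ω ω' hωω
      have h1 : A1_mod S U o w z ω = A1_mod S U o w z ω' := by
        funext t
        unfold A1_mod
        by_cases ht : t ∈ A1_Q S U o w
        · rw [if_pos ht, if_pos ht]
        · rw [if_neg ht, if_neg ht]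
          exact hωω t ht
      show (if nP S U o m K (A1_mod S U o w z ω) u a then (1 : ℝ) else 0) =
        if nP S U o m K (A1_mod S U o w z ω') u a then (1 : ℝ) else 0
      rw [h1])
  have hb := (hRet V κ S U L D l m K x q Lam o h hc).1 w hwU
  have hb0 := h.bet_pos
  have hA : mean (fun ω : Lab V κ → Fin (m ^ (2 * K + 1)) =>
      if nP S U o m K (A1_mod S U o w z ω) u a then (1 : ℝ) else 0) ≤ A0 S U o m K u a := by
    unfold A0
    refine Ret_mean_mono fun ω => ?_
    by_cases h1 : nP S U o m K (A1_mod S U o w z ω) u a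
    · rw [if_pos h1, if_pos (hmono ω h1)]
    · rw [if_neg h1]
      split_ifs
      · exact zero_le_one
      · exact le_rfl
  calc mean (fun ω : Lab V κ → Fin (m ^ (2 * K + 1)) =>
        if retv S U o m K ω w ∧ nP S U o m K ω u a then (1 : ℝ) else 0)
      ≤ mean (fun ω : Lab V κ → Fin (m ^ (2 * K + 1)) =>
        (if retv S U o m K ω w then (1 : ℝ) else 0) *
          (if nP S U o m K (A1_mod S U o w z ω) u a then (1 : ℝ) else 0)) := by
        refine Ret_mean_mono fun ω => ?_
        by_cases h1 : retv S U o m K ω w ∧ nP S U o m K ω u a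
        · rw [if_pos h1, if_pos h1.1, if_pos (hconv ω h1.1 h1.2), mul_one]
        · rw [if_neg h1]
          apply mul_nonneg
          · split_ifs
            · exact zero_le_one
            · exact le_rfl
          · split_ifs
            · exact zero_le_one
            · exact le_rfl
    _ = bet m K * mean (fun ω : Lab V κ → Fin (m ^ (2 * K + 1)) =>
          if nP S U o m K (A1_mod S U o w z ω) u a then (1 : ℝ) else 0) := by
        rw [← hb]
        refine (Ret_mean_congr fun ω => rfl).trans (hprod.trans ?_)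
        exact congrArg₂ (· * ·) (Ret_mean_congr fun ω => rfl) (Ret_mean_congr fun ω => rfl)
    _ ≤ bet m K * A0 S U o m K u a := mul_le_mul_of_nonneg_left hA hb0.le

end

theorem thm_A1 (hBox : St_Box) (hRet : St_Ret) : St_A1 := by
  intro V κ _ _ S U L D l m K x q Lam o h hc u hu a ha
  have hkey : ∀ w ∈ KR S U o u (S.r u a),
      mean (fun ω : Lab V κ → Fin (m ^ (2 * K + 1)) =>
        if retv S U o m K ω w ∧ nP S U o m K ω u a then (1 : ℝ) else 0) ≤
      bet m K * A0 S U o m K u a := fun w hw => A1_key hBox hRet h hc hw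
  have h1 : A0 S U o m K u a ≤ A1 S U o m K u a +
      mean (fun ω : Lab V κ → Fin (m ^ (2 * K + 1)) => ∑ w ∈ KR S U o u (S.r u a),
        if retv S U o m K ω w ∧ nP S U o m K ω u a then (1 : ℝ) else 0) := by
    unfold A0 A1
    have h2 : mean (fun ω : Lab V κ → Fin (m ^ (2 * K + 1)) =>
          if nP S U o m K ω u a ∧ nR S U o m K ω u a then (1 : ℝ) else 0) +
        mean (fun ω : Lab V κ → Fin (m ^ (2 * K + 1)) => ∑ w ∈ KR S U o u (S.r u a),
          if retv S U o m K ω w ∧ nP S U o m K ω u a then (1 : ℝ) else 0) =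
        mean (fun ω : Lab V κ → Fin (m ^ (2 * K + 1)) =>
          (if nP S U o m K ω u a ∧ nR S U o m K ω u a then (1 : ℝ) else 0) +
          ∑ w ∈ KR S U o u (S.r u a),
          if retv S U o m K ω w ∧ nP S U o m K ω u a then (1 : ℝ) else 0) := by
      unfold mean
      rw [sum_add_distrib, add_div]
    rw [h2]
    refine Ret_mean_mono fun ω => ?_
    have h0 : 0 ≤ ∑ w ∈ KR S U o u (S.r u a),
        if retv S U o m K ω w ∧ nP S U o m K ω u a then (1 : ℝ) else 0 := by
      refine sum_nonneg fun w _ => ?_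
      split_ifs
      · exact zero_le_one
      · exact le_rfl
    by_cases hP : nP S U o m K ω u a
    · by_cases hR : nR S U o m K ω u a
      · rw [if_pos hP, if_pos ⟨hP, hR⟩]
        linarith
      · rw [if_pos hP, if_neg (fun hh => hR hh.2), zero_add]
        unfold nR at hR
        push Not at hR
        obtain ⟨w, hw, hr⟩ := hR
        have h3 : (if retv S U o m K ω w ∧ nP S U o m K ω u a then (1 : ℝ) else 0) = 1 :=
          if_pos ⟨hr, hP⟩
        refine le_trans (le_of_eq h3.symm) ?_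
        refine single_le_sum (f := fun w => if retv S U o m K ω w ∧ nP S U o m K ω u a
          then (1 : ℝ) else 0) (fun i _ => ?_) hw
        show (0 : ℝ) ≤ if retv S U o m K ω i ∧ nP S U o m K ω u a then (1 : ℝ) else 0
        split_ifs
        · exact zero_le_one
        · exact le_rfl
    · rw [if_neg hP, if_neg (fun hh => hP hh.1), zero_add]
      exact h0
  have h4 : mean (fun ω : Lab V κ → Fin (m ^ (2 * K + 1)) => ∑ w ∈ KR S U o u (S.r u a),
        if retv S U o m K ω w ∧ nP S U o m K ω u a then (1 : ℝ) else 0) ≤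
      (KR S U o u (S.r u a)).card * (bet m K * A0 S U o m K u a) := by
    rw [Mean_sum (KR S U o u (S.r u a)) (fun w (ω : Lab V κ → Fin (m ^ (2 * K + 1))) =>
      if retv S U o m K ω w ∧ nP S U o m K ω u a then (1 : ℝ) else 0), ← nsmul_eq_mul]
    exact sum_le_card_nsmul _ _ _ hkey
  nlinarith [h1, h4]

end Pool.TCU
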