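import Pool.Agent.Helper93.TCU.SStmt2

/-!
# SCOL: the columns of the S-stage (helper27)
-/

set_option autoImplicit false

namespace Pool.TCU

open Pool.TC Pool.TCM Pool.TCS Pool.TCV Finset
open scoped Classical

section

variable {V κ : Type} [Fintype V] [Fintype κ]

/-- the properties of the options which use `v` -/
private theorem SCol_mem {P : Par} {t : Td V κ} {X : V → Prop} {cX : V → κ} {L : V → Finset κ}
    (hL : ∀ u ∈ sU t, L u ⊆ sO t X cX u) {v : V} {p : V × κ}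
    (hp : p ∈ Cv (sCS P t) (sU t) L v) :
    t.E.N p.2 p.1 = v ∧ t.E.N p.2 v = p.1 ∧ p.1 ≠ v ∧ t.K p.1 = none ∧ ¬ t.F0 p.1 ∧
      p.2 ∉ t.J0 ∧ t.tau (t.E.N p.2 v) ≠ t.tau v := by
  unfold Cv at hp
  rw [mem_filter] at hp
  obtain ⟨-, hU, hLa, hr⟩ := hp
  have hO := hL _ hU hLa
  unfold sO at hO
  rw [mem_filter] at hO
  obtain ⟨-, hJ, hcr, -, -⟩ := hO
  unfold sU at hU
  rw [mem_filter] at hU
  have hU' : t.K p.1 = none ∧ ¬ t.F0 p.1 := hU.2
  have hr' : t.E.N p.2 p.1 = v := hr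
  have h2 : t.E.N p.2 v = p.1 := by rw [← hr', t.E.inv]
  obtain ⟨⟨g1, g2⟩, g3⟩ := hcr
  refine ⟨hr', h2, ?_, hU'.1, hU'.2, hJ, ?_⟩
  · rw [← hr']
    exact fun h => g1 h.symm
  · rw [h2, ← hr']
    exact fun h => g3 h.symm

private theorem SCol_inj {P : Par} {t : Td V κ} {X : V → Prop} {cX : V → κ} {L : V → Finset κ}
    (hL : ∀ u ∈ sU t, L u ⊆ sO t X cX u) {v : V} {p p' : V × κ}
    (hp : p ∈ Cv (sCS P t) (sU t) L v) (hp' : p' ∈ Cv (sCS P t) (sU t) L v)
    (he : p.2 = p'.2) : p = p' := by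
  obtain ⟨h1, h2, -⟩ := SCol_mem hL hp
  obtain ⟨h1', h2', -⟩ := SCol_mem hL hp'
  have h3 : p.1 = p'.1 := by rw [← h2, ← h2', he]
  exact Prod.ext h3 he

private theorem SCol_c1 {P : Par} {t : Td V κ} {X : V → Prop} {cX : V → κ} {L : V → Finset κ}
    (hL : ∀ u ∈ sU t, L u ⊆ sO t X cX u) (v : V) :
    ((Cv (sCS P t) (sU t) L v).filter (fun p => ¬ shh P t p.1)).card ≤
      (univ.filter (fun a => a ∉ t.J0 ∧ (t.A P (t.E.N a v) ∧ ¬ t.F0 (t.E.N a v)) ∧
        t.tau (t.E.N a v) ≠ t.tau v)).card := by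
  apply card_le_card_of_injOn (fun p => p.2)
  · intro p hp
    rw [mem_coe, mem_filter] at hp
    obtain ⟨h1, h2, h3, h4, h5, h6, h7⟩ := SCol_mem hL hp.1
    rw [mem_coe, mem_filter]
    refine ⟨mem_univ _, h6, ⟨?_, ?_⟩, h7⟩
    · rw [h2]
      by_contra hA
      exact hp.2 ⟨h4, hA⟩
    · rw [h2]
      exact h5
  · intro p hp p' hp' he
    rw [mem_coe, mem_filter] at hp hp'
    exact SCol_inj hL hp.1 hp'.1 he

private theorem SCol_c2 {P : Par} {t : Td V κ} {X : V → Prop} {cX : V → κ} {L : V → Finset κ}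
    (hL : ∀ u ∈ sU t, L u ⊆ sO t X cX u) (v : V) :
    ((Cv (sCS P t) (sU t) L v).filter (fun p => shh P t p.1)).card ≤
      (univ.filter (fun a => a ∉ t.J0 ∧ (t.K (t.E.N a v) = none ∧ ¬ t.A P (t.E.N a v)) ∧
        t.tau (t.E.N a v) ≠ t.tau v)).card := by
  apply card_le_card_of_injOn (fun p => p.2)
  · intro p hp
    rw [mem_coe, mem_filter] at hp
    obtain ⟨h1, h2, h3, h4, h5, h6, h7⟩ := SCol_mem hL hp.1
    rw [mem_coe, mem_filter]
    refine ⟨mem_univ _, h6, ⟨?_, ?_⟩, h7⟩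
    · rw [h2]
      exact h4
    · rw [h2]
      exact hp.2.2
  · intro p hp p' hp' he
    rw [mem_coe, mem_filter] at hp hp'
    exact SCol_inj hL hp.1 hp'.1 he

private theorem SCol_cjg (e : Ed V κ) (R R' : V → Prop) (h : ∀ w, R w → ¬ R' w) (v : V) :
    e.cj R v + e.cj R' v + e.J0.card ≤ Fintype.card κ := by
  unfold Ed.cj
  rw [← card_union_of_disjoint, ← card_add_card_compl e.J0, add_comm]
  · apply Nat.add_le_add_left
    apply card_le_card
    intro a ha
    rw [mem_compl]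
    rw [mem_union, mem_filter, mem_filter] at ha
    rcases ha with ha | ha
    · exact ha.2.1
    · exact ha.2.1
  · rw [disjoint_left]
    intro a ha hb
    rw [mem_filter] at ha hb
    exact h _ ha.2.2.2 hb.2.2.2

private theorem SCol_cjm (e : Ed V κ) (R R' : V → Prop) (h : ∀ w, R w → R' w) (v : V) :
    e.cj R v ≤ e.cj R' v := by
  unfold Ed.cj
  apply card_le_card
  intro a ha
  rw [mem_filter] at ha ⊢
  exact ⟨ha.1, ha.2.1, ha.2.2.1, h _ ha.2.2.2⟩

private theorem SCol_cj {P : Par} {t : Td V κ} (v : V) :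
    t.cj (fun w => t.A P w ∧ ¬ t.F0 w) v + t.cj (fun w => t.K w = none ∧ ¬ t.A P w) v +
      t.J0.card ≤ Fintype.card κ :=
  SCol_cjg t.toEd _ _ (fun w h1 h2 => h2.2 h1.1) v

private theorem SCol_cj2 {P : Par} {t : Td V κ} (v : V) :
    t.cj (fun w => t.K w = none ∧ ¬ t.A P w) v ≤ t.cj (fun w => ¬ t.A P w) v :=
  SCol_cjm t.toEd _ _ (fun w h => h.2) v

end

theorem thm_SCol : St_SCol := by
  intro P V κ _ _ t X cX L hN hB hX hL
  have hX1 : (1 : ℝ) ≤ P.X := by
    have h1 : 1 ≤ P.X := le_trans (by norm_num) hN.X0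
    exact_mod_cast h1
  have hD1 : (1 : ℝ) ≤ P.D := le_trans (one_le_pow₀ hX1) hN.XD
  have hnz : 1 ≤ P.nz := by
    rw [hN.nz]
    have h1 : (1 : ℝ) ≤ Real.sqrt P.D := Real.one_le_sqrt.2 hD1
    exact one_le_mul_of_one_le_of_one_le (one_le_pow₀ hX1) h1
  have hpa : (1 : ℝ) ≤ P.pa := by
    rw [hN.pa]
    push_cast
    exact one_le_pow₀ hX1
  have hthp0 : 0 ≤ P.thp := by
    rw [hN.thp]
    positivity
  have hthp1 : P.thp ≤ 1 / 4 := by
    rw [hN.thp]
    have h1 : ((1 : ℝ) / 2) ^ P.r ≤ 1 := pow_le_one₀ (by norm_num) (by norm_num)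
    rw [div_le_iff₀ (by linarith)]
    linarith
  have key : ∀ v, (((Cv (sCS P t) (sU t) L v).filter (fun p => ¬ shh P t p.1)).card : ℝ) ≤
        1 / 2 * (t.cj (fun w => t.A P w ∧ ¬ t.F0 w) v : ℝ) + P.nz ∧
      (((Cv (sCS P t) (sU t) L v).filter (fun p => shh P t p.1)).card : ℝ) ≤
        1 / 2 * (t.cj (fun w => t.K w = none ∧ ¬ t.A P w) v : ℝ) + P.nz := by
    intro v
    have h1 : (((Cv (sCS P t) (sU t) L v).filter (fun p => ¬ shh P t p.1)).card : ℝ) ≤
        ((univ.filter (fun a => a ∉ t.J0 ∧ (t.A P (t.E.N a v) ∧ ¬ t.F0 (t.E.N a v)) ∧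
          t.tau (t.E.N a v) ≠ t.tau v)).card : ℝ) := by exact_mod_cast SCol_c1 hL v
    have h2 : (((Cv (sCS P t) (sU t) L v).filter (fun p => shh P t p.1)).card : ℝ) ≤
        ((univ.filter (fun a => a ∉ t.J0 ∧ (t.K (t.E.N a v) = none ∧ ¬ t.A P (t.E.N a v)) ∧
          t.tau (t.E.N a v) ≠ t.tau v)).card : ℝ) := by exact_mod_cast SCol_c2 hL v
    exact ⟨h1.trans (hB.ts.s2 v), h2.trans (hB.ts.s2' v)⟩
  have hcol : ∀ v, (t.cj (fun w => t.A P w ∧ ¬ t.F0 w) v : ℝ) +
      (t.cj (fun w => t.K w = none ∧ ¬ t.A P w) v : ℝ) + t.J0.card ≤ (P.D : ℝ) + 1 := by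
    intro v
    have h1 := SCol_cj (P := P) (t := t) v
    rw [hB.ed.col] at h1
    exact_mod_cast h1
  refine ⟨fun v => ?_, fun v => ?_⟩
  · obtain ⟨h1, h2⟩ := key v
    have h3 := hcol v
    have h4 := card_filter_add_card_filter_not (s := Cv (sCS P t) (sU t) L v)
      (fun p => shh P t p.1)
    have h5 : ((Cv (sCS P t) (sU t) L v).card : ℝ) =
        (((Cv (sCS P t) (sU t) L v).filter (fun p => shh P t p.1)).card : ℝ) +
        ((Cv (sCS P t) (sU t) L v).filter (fun p => ¬ shh P t p.1)).card := by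
      exact_mod_cast h4.symm
    unfold sx
    rw [h5]
    linarith
  · by_cases hK : t.K v = none
    · right
      refine ⟨?_, ?_⟩
      · intro p hp hs
        obtain ⟨h1, -⟩ := SCol_mem hL hp
        unfold skt at hs
        rw [h1] at hs
        exact hs hK
      · obtain ⟨h1, h2⟩ := key v
        have h3 := hB.ac.f2 v
        have h4 : (t.cj (fun w => t.K w = none ∧ ¬ t.A P w) v : ℝ) ≤
            t.cj (fun w => ¬ t.A P w) v := by exact_mod_cast SCol_cj2 (P := P) (t := t) v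
        have h5 : ((P.D : ℝ) + 1 - t.J0.card) / 2 - 4 * P.nz < (sl P t : ℝ) + 1 := by
          unfold sl
          exact Nat.lt_floor_add_one _
        have h6 : (0 : ℝ) ≤ t.cj (fun w => t.K w = none ∧ ¬ t.A P w) v := Nat.cast_nonneg _
        have h7 : (1 - 2 * P.thp) *
            (((Cv (sCS P t) (sU t) L v).filter (fun p => shh P t p.1)).card : ℝ) ≤
            (1 - 2 * P.thp) *
            (1 / 2 * (t.cj (fun w => t.K w = none ∧ ¬ t.A P w) v : ℝ) + P.nz) :=
          mul_le_mul_of_nonneg_left h2 (by linarith)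
        have h8 : (1 - P.thp) * (t.cj (fun w => t.K w = none ∧ ¬ t.A P w) v : ℝ) ≤
            (1 - P.thp) * t.cj (fun w => ¬ t.A P w) v :=
          mul_le_mul_of_nonneg_left h4 (by linarith)
        have h9 : (1 - P.thp) * (((P.D : ℝ) + 1 - t.J0.card) / 2 - 4 * P.nz) ≤
            (1 - P.thp) * ((sl P t : ℝ) + 1) :=
          mul_le_mul_of_nonneg_left h5.le (by linarith)
        have h10 : 0 ≤ P.thp * (t.cj (fun w => t.K w = none ∧ ¬ t.A P w) v : ℝ) :=
          mul_nonneg hthp0 h6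
        have h11 : 0 ≤ P.thp * P.nz := mul_nonneg hthp0 (by linarith)
        nlinarith [h1, h3, h7, h8, h9, h10, h11]
    · left
      have h1 := hB.gr.d4 v hK
      have h2 : (Cv (sCS P t) (sU t) L v).card ≤ t.oo v := by
        unfold Gd.oo
        apply card_le_card_of_injOn (fun p => p.1)
        · intro p hp
          rw [mem_coe] at hp
          obtain ⟨h1, h2, h3, h4, h5, h6, h7⟩ := SCol_mem hL hp
          rw [mem_coe, mem_filter]
          refine ⟨?_, ?_⟩
          · unfold nb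
            rw [mem_filter]
            refine ⟨mem_univ _, ?_⟩
            have h8 := hB.ed.sub p.2 v (by rw [h2]; exact h3)
            rwa [h2] at h8
          · show t.K p.1 ≠ t.K v
            rw [h4]
            exact fun h => hK h.symm
        · intro p hp p' hp' he
          rw [mem_coe] at hp hp'
          obtain ⟨h1, h2, h3, -⟩ := SCol_mem hL hp
          obtain ⟨h1', h2', h3', -⟩ := SCol_mem hL hp'
          have he' : p.1 = p'.1 := he
          have h4 : t.E.N p.2 p.1 = t.E.N p'.2 p.1 := by rw [h1, he', h1']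
          exact Prod.ext he' (t.E.uniq p.2 p'.2 p.1 h4 (by rw [h1]; exact fun h => h3 h.symm))
      omega

end Pool.TCU
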